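import Pool.Agent.H289CC.Assembly
import Pool.Agent.H289CC.Task9me
import Pool.Agent.H289CC.Task10
import Pool.Agent.H289CC.Task11
import Pool.Agent.H289CC.Task12
import Pool.Agent.H289CC.Task13
import Pool.Agent.H289CC.Task14
import Pool.Agent.Q40.LP.MainProof
import Pool.Agent.Q40.LP.TaskAbs1
import Pool.Agent.Q40.LP.TaskAnn
import Pool.Agent.Q40.LP.TaskBdd
import Pool.Agent.Q40.LP.TaskBil
import Pool.Agent.Q40.LP.TaskBound
import Pool.Agent.Q40.LP.TaskCirc
import Pool.Agent.Q40.LP.TaskCont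
import Pool.Agent.Q40.LP.TaskDecomp
import Pool.Agent.Q40.LP.TaskFru
import Pool.Agent.Q40.LP.TaskFruAbs
import Pool.Agent.Q40.LP.TaskGauss
import Pool.Agent.Q40.LP.TaskInf
import Pool.Agent.Q40.LP.TaskInt
import Pool.Agent.Q40.LP.TaskKey
import Pool.Agent.Q40.LP.TaskMP
import Pool.Agent.Q40.LP.TaskMin
import Pool.Agent.Q40.LP.TaskOp
import Pool.Agent.Q40.LP.TaskOrth
import Pool.Agent.Q40.LP.TaskPD
import Pool.Agent.Q40.LP.TaskPotRefl
import Pool.Agent.Q40.LP.TaskPpos
import Pool.Agent.Q40.LP.TaskRank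
import Pool.Agent.Q40.LP.TaskRefl
import Pool.Agent.Q40.LP.TaskSolve
import Pool.Agent.Q40.LP.TaskSub
import Pool.Agent.Q40.LP.TaskSymm
import Pool.Agent.Q40.LP.TaskTest
import Pool.Agent.Q40.LP.TaskVpos

/-!
# MP_ccba21_an, Q1: among the domains of given area the disc has the greatest negative eigenvalue

`tau Ω` is the negative eigenvalue of the logarithmic potential operator of `Ω` (`0` if there is
none). Proof of `tau Ω ≤ tau Ω*`: polarizations do not decrease `tau` (`Main`, MP_86d647_an); the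
mean over all mirrors of the area moved into the disc is bounded below, so iterated polarizations
converge in measure to `Ω*`; and `tau` is upper semicontinuous along such sequences.
-/

set_option autoImplicit false

open Set MeasureTheory

namespace Pool.Agent.Results.MP_ccba21_an.DiscHasGreatestTau

open Pool.Agent.Q40.LP Pool.Agent.H289CC

/-- For every nonempty bounded open plane set `Ω` (connected or not), and the open disc of the same
area, `tau Ω ≤ tau (disc)`. -/
theorem result (Ω : Set ℂ) (hO : IsOpen Ω) (hne : Ω.Nonempty) (hb : Bornology.IsBounded Ω) (ρ : ℝ)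
    (hρ : volume (Metric.ball (0 : ℂ) ρ) = volume Ω) : tau Ω ≤ tau (Metric.ball 0 ρ) := by
  have hInt : TaskInt := Pool.Agent.Q40.LP.TaskInt.main
  have hBound : TaskBound := Pool.Agent.Q40.LP.TaskBound.main
  have hCont : TaskCont := Pool.Agent.Q40.LP.TaskCont.main hInt hBound
  have hSymm : TaskSymm := Pool.Agent.Q40.LP.TaskSymm.main hInt hBound
  have hFru : TaskFru := Pool.Agent.Q40.LP.TaskFru.main
  have hFruAbs : TaskFruAbs := Pool.Agent.Q40.LP.TaskFruAbs.main hFru
  have hGauss : TaskGauss := Pool.Agent.Q40.LP.TaskGauss.main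
  have hPD : TaskPD := Pool.Agent.Q40.LP.TaskPD.main hFru hFruAbs hGauss hInt hBound
  have hCirc : TaskCirc := Pool.Agent.Q40.LP.TaskCirc.main hInt hBound
  have hSub : TaskSub := Pool.Agent.Q40.LP.TaskSub.main hInt hCirc
  have hInf : TaskInf := Pool.Agent.Q40.LP.TaskInf.main hInt
  have hMP : TaskMP := Pool.Agent.Q40.LP.TaskMP.main
  have hVpos : TaskVpos := Pool.Agent.Q40.LP.TaskVpos.main hCont hInf hMP hSub
  have hAbs1 : TaskAbs1 := Pool.Agent.Q40.LP.TaskAbs1.main
  have hOp : TaskOp := Pool.Agent.Q40.LP.TaskOp.main hInt hBound hCont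
  have hAnn : TaskAnn := Pool.Agent.Q40.LP.TaskAnn.main hCirc
  have hBil : TaskBil := Pool.Agent.Q40.LP.TaskBil.main hInt hCont
  have hRank : TaskRank := Pool.Agent.Q40.LP.TaskRank.main hPD hSymm hAnn hBil
  have hRefl : TaskRefl := Pool.Agent.Q40.LP.TaskRefl.main
  have hPR : TaskPotRefl := Pool.Agent.Q40.LP.TaskPotRefl.main hRefl
  have hSolve : TaskSolve := Pool.Agent.Q40.LP.TaskSolve.main hPD hOp hRefl hPR hBil hCont
  have hPpos : TaskPpos := Pool.Agent.Q40.LP.TaskPpos.main hCont hSub hInf hMP hRefl hPR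
  have hOrth : TaskOrth := Pool.Agent.Q40.LP.TaskOrth.main hRefl hPR
  have hKey : TaskKey := Pool.Agent.Q40.LP.TaskKey.main hSymm hPD hSolve hPpos hBil hRefl hPR
  have hDecomp : TaskDecomp := Pool.Agent.Q40.LP.TaskDecomp.main hRefl
  have hMin : TaskMin := Pool.Agent.Q40.LP.TaskMin.main hAbs1 hOp hRank hSymm hBil
  have hBdd : TaskBdd := Pool.Agent.Q40.LP.TaskBdd.main hBound
  have hTest : TaskTest :=
    Pool.Agent.Q40.LP.TaskTest.main hVpos hBil hOrth hKey hDecomp hRefl
  have hMain : Main := Pool.Agent.Q40.LP.MainProof.main hMin hBdd hTest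
  exact answer1 hMain hMin hBdd hInt hBound hSymm hBil Pool.Agent.H289CC.Task9me.main
    Pool.Agent.H289CC.Task10.main Pool.Agent.H289CC.Task11.main Pool.Agent.H289CC.Task12.main
    Pool.Agent.H289CC.Task13.main Pool.Agent.H289CC.Task14.main Ω hO hne hb ρ hρ

end Pool.Agent.Results.MP_ccba21_an.DiscHasGreatestTau
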