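import Pool.Agent.Q40.LP.MainProof2
import Pool.Agent.Q40.LP.TaskThin
import Pool.Agent.Q40.LP.TaskDisc
import Pool.Agent.Q40.LP.TaskFek
import Pool.Agent.Q40.LP.TaskScale
import Pool.Agent.Q40.LP.TaskLow
import Pool.Agent.Q40.LP.TaskFact
import Pool.Agent.Q40.LP.TaskRect
import Pool.Agent.Q40.LP.TaskDom
import Pool.Agent.Q40.LP.TaskAbs1
import Pool.Agent.Q40.LP.TaskAnn
import Pool.Agent.Q40.LP.TaskBdd
import Pool.Agent.Q40.LP.TaskBil
import Pool.Agent.Q40.LP.TaskBound
import Pool.Agent.Q40.LP.TaskCirc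
import Pool.Agent.Q40.LP.TaskCont
import Pool.Agent.Q40.LP.TaskFru
import Pool.Agent.Q40.LP.TaskFruAbs
import Pool.Agent.Q40.LP.TaskGauss
import Pool.Agent.Q40.LP.TaskInt
import Pool.Agent.Q40.LP.TaskMin
import Pool.Agent.Q40.LP.TaskOp
import Pool.Agent.Q40.LP.TaskPD
import Pool.Agent.Q40.LP.TaskRank
import Pool.Agent.Q40.LP.TaskSymm

set_option autoImplicit false

/-!
# Thin domains: the disc does not maximise the negative eigenvalue for given transfinite diameter

Let `τ(Ω)` be the negative eigenvalue of the logarithmic potential operator of the bounded domain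
`Ω` (`0` if there is none). For every `R > 1` the disc `B_R` has `τ(B_R) < 0`, but there are bounded
domains `Ω` of transfinite diameter `R` with `τ(Ω)` arbitrarily close to `0`: thin rectangles. So the
inequality `τ(Ω) ≤ τ(B_R)` fails for every `R > 1`.

Proof. All eigenvalues of `Ω ⊆ B_L` have absolute value at most `C(L) √|Ω|`. The rectangle of side
lengths `1` and `e ≤ 1` contains a unit segment, so its transfinite diameter `t` is at least
`exp(-2)`; scaled by `R / t` it has the transfinite diameter `R`, it is contained in a fixed disc and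
its area is at most `R² exp(4) e`.
-/

open Set Filter Topology MeasureTheory

namespace Pool.Agent.Results.MP_ccba21_an.ThinDomains

/-- The logarithmic potential `∫ log (1 / |x - y|) u(y) dy`. -/
noncomputable def logPotential (u : ℂ → ℝ) (x : ℂ) : ℝ := ∫ y, Real.log (1 / ‖x - y‖) * u y

/-- `τ` is an eigenvalue of the operator `u ↦ logPotential u` of `L²(Ω)`: there is a function `u`,
not zero almost everywhere, square integrable and zero off `Ω`, whose potential is `τ u` almost
everywhere in `Ω`. -/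
def IsEigenvalue (Ω : Set ℂ) (τ : ℝ) : Prop :=
  ∃ u : ℂ → ℝ, (MemLp u 2 volume ∧ ∀ x, x ∉ Ω → u x = 0) ∧ (¬ u =ᵐ[volume] 0) ∧
    ∀ᵐ x, x ∈ Ω → logPotential u x = τ * u x

/-- The negative eigenvalue of `Ω` (by Troutman there is at most one), or `0` if there is none. -/
noncomputable def tau (Ω : Set ℂ) : ℝ := sInf ({0} ∪ {τ | τ < 0 ∧ IsEigenvalue Ω τ})

/-- The product of the distances `|z_i - z_j|`, `i < j`. -/
noncomputable def distProd {n : ℕ} (z : Fin n → ℂ) : ℝ :=
  ∏ i : Fin n, ∏ j ∈ Finset.univ.filter (fun j => i < j), ‖z i - z j‖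

/-- The `n`-th diameter of `E`: the supremum of `(∏_{i < j} |z_i - z_j|) ^ (2 / (n (n - 1)))` over the
`n`-tuples of points of `E`. -/
noncomputable def nthDiameter (E : Set ℂ) (n : ℕ) : ℝ :=
  sSup {d | ∃ z : Fin n → ℂ, (∀ i, z i ∈ E) ∧ d = distProd z ^ ((2 : ℝ) / (n * (n - 1)))}

/-- `T` is the transfinite diameter of `E`: the limit of the `n`-th diameters. -/
def IsTransfiniteDiameter (E : Set ℂ) (T : ℝ) : Prop := Tendsto (nthDiameter E) atTop (𝓝 T)

open Pool.Agent.Q40.LP in
theorem tasks : TaskThin ∧ TaskDisc ∧ TaskBdd ∧ TaskDom := by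
  have hInt : TaskInt := TaskInt.main
  have hBound : TaskBound := TaskBound.main
  have hCont : TaskCont := TaskCont.main hInt hBound
  have hSymm : TaskSymm := TaskSymm.main hInt hBound
  have hFru : TaskFru := TaskFru.main
  have hFruAbs : TaskFruAbs := TaskFruAbs.main hFru
  have hGauss : TaskGauss := TaskGauss.main
  have hPD : TaskPD := TaskPD.main hFru hFruAbs hGauss hInt hBound
  have hCirc : TaskCirc := TaskCirc.main hInt hBound
  have hAbs1 : TaskAbs1 := TaskAbs1.main
  have hOp : TaskOp := TaskOp.main hInt hBound hCont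
  have hAnn : TaskAnn := TaskAnn.main hCirc
  have hBil : TaskBil := TaskBil.main hInt hCont
  have hRank : TaskRank := TaskRank.main hPD hSymm hAnn hBil
  have hMin : TaskMin := TaskMin.main hAbs1 hOp hRank hSymm hBil
  have hBdd : TaskBdd := TaskBdd.main hBound
  have hThin : TaskThin := TaskThin.main hBound
  have hDisc : TaskDisc := TaskDisc.main hMin hCirc hBil
  have hFek : TaskFek := TaskFek.main
  have hScale : TaskScale := TaskScale.main
  have hFact : TaskFact := TaskFact.main
  have hLow : TaskLow := TaskLow.main hFact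
  have hRect : TaskRect := TaskRect.main
  have hDom : TaskDom := TaskDom.main hFek hScale hLow hRect
  exact ⟨hThin, hDisc, hBdd, hDom⟩

/-- **Theorem.** Let `R > 1`. The disc `B_R` has a negative `τ`, and for every `ε > 0` there is a
bounded domain `Ω` of transfinite diameter `R` with `τ(Ω) > - ε`. In particular some bounded domain
`Ω` of transfinite diameter `R` has `τ(Ω) > τ(B_R)`. -/
theorem result (R : ℝ) (hR : 1 < R) :
    tau (Metric.ball 0 R) < 0 ∧
    (∀ ε : ℝ, 0 < ε → ∃ Ω : Set ℂ, IsOpen Ω ∧ IsConnected Ω ∧ Bornology.IsBounded Ω ∧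
      IsTransfiniteDiameter (closure Ω) R ∧ -ε < tau Ω) ∧
    ∃ Ω : Set ℂ, IsOpen Ω ∧ IsConnected Ω ∧ Bornology.IsBounded Ω ∧
      IsTransfiniteDiameter (closure Ω) R ∧ tau (Metric.ball 0 R) < tau Ω := by
  obtain ⟨hThin, hDisc, hBdd, hDom⟩ := tasks
  have hR0 : 0 < R := lt_trans one_pos hR
  have h1 : tau (Metric.ball 0 R) < 0 := Pool.Agent.Q40.LP.MainProof2.disc hDisc hBdd R hR
  have h2 : ∀ ε : ℝ, 0 < ε → ∃ Ω : Set ℂ, IsOpen Ω ∧ IsConnected Ω ∧ Bornology.IsBounded Ω ∧
      IsTransfiniteDiameter (closure Ω) R ∧ -ε < tau Ω := fun ε hε =>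
    Pool.Agent.Q40.LP.MainProof2.thin hThin hDom R hR0 ε hε
  refine ⟨h1, h2, ?_⟩
  obtain ⟨Ω, a, b, c, d, e⟩ := h2 (- tau (Metric.ball 0 R)) (by linarith)
  exact ⟨Ω, a, b, c, d, by linarith⟩

end Pool.Agent.Results.MP_ccba21_an.ThinDomains
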